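import Mathlib

open Set Filter

universe u

namespace Pool.Agent.Results.MP_2fc951_gt.NoUniversal

/-- Bounded geometry: for every radius the closed balls have uniformly boundedly many points. -/
def BoundedGeometry (X : Type*) [MetricSpace X] : Prop :=
  ∀ r : ℝ, 0 < r → ∃ N : ℕ, ∀ x : X, (Metric.closedBall x r).encard ≤ N

/-- `f` is a coarse embedding, with control functions `ρ₋` and `ρ₊`. -/
def CoarseEmbedding {Y X : Type*} [MetricSpace Y] [MetricSpace X] (f : Y → X) : Prop :=
  ∃ ρm ρp : NNReal → NNReal, Monotone ρm ∧ Monotone ρp ∧ Tendsto ρm atTop atTop ∧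
    ∀ y y' : Y, ρm (nndist y y') ≤ nndist (f y) (f y') ∧
      nndist (f y) (f y') ≤ ρp (nndist y y')

/-- Yu's Property A, in the form of the problem. -/
def PropertyA (X : Type*) [MetricSpace X] : Prop :=
  ∀ R ε : ℝ, 0 < R → 0 < ε → ∃ S : ℝ, 0 < S ∧ ∃ ξ : X → lp (fun _ : X => ℝ) 1,
    (∀ x, ‖ξ x‖ = 1) ∧ (∀ x z, z ∉ Metric.ball x S → ξ x z = 0) ∧
      (∀ x y, dist x y ≤ R → ‖ξ x - ξ y‖ ≤ ε)


/-- A finite family of size `M` enumerating a set with at most `M` elements. -/
lemma exists_enum {α : Type*} [Nonempty α] (A : Set α) (M : ℕ) (h : A.encard ≤ M) :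
    ∃ F : Fin M → α, A ⊆ Set.range F := by
  have hfin : A.Finite := Set.finite_of_encard_le_coe h
  have : Fintype A := hfin.fintype
  have hcard : Fintype.card A ≤ Fintype.card (Fin M) := by
    rw [Fintype.card_fin]
    have h1 : A.encard = Fintype.card A := by
      rw [Set.encard_eq_coe_toFinset_card, Set.toFinset_card]
    rw [h1] at h
    exact_mod_cast h
  obtain ⟨e⟩ := Function.Embedding.nonempty_of_card_le hcard
  refine ⟨Function.extend e Subtype.val (fun _ => Classical.arbitrary α), ?_⟩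
  intro a ha
  exact ⟨e ⟨a, ha⟩, e.injective.extend_apply _ _ _⟩

/-- The path decoded from a code. -/
def decode {X : Type*} {N : ℕ} (E : X → Fin N → X) (x : X) (w : ℕ → Fin N) : ℕ → X
  | 0 => x
  | i + 1 => E (decode E x w i) (w i)

lemma decode_congr {X : Type*} {N : ℕ} (E : X → Fin N → X) (x : X) (w w' : ℕ → Fin N) (n : ℕ)
    (h : ∀ i < n, w i = w' i) : ∀ i ≤ n, decode E x w i = decode E x w' i := by
  intro i
  induction i with
  | zero => intro _; rfl
  | succ i ih =>
    intro hi
    rw [decode, decode, ih (by omega), h i (by omega)]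

/-- Factorials beat exponentials. -/
lemma exists_factorial_gt (a c : ℕ) : ∃ m : ℕ, 0 < m ∧ a * c ^ m < m.factorial := by
  have h := FloorSemiring.tendsto_pow_div_factorial_atTop (K := ℝ) (c : ℝ)
  have h2 : ∀ᶠ m : ℕ in atTop, (c : ℝ) ^ m / m.factorial < 1 / ((a : ℝ) + 1) :=
    h.eventually_lt_const (by positivity)
  obtain ⟨m, hm, hm2⟩ := (h2.and (eventually_gt_atTop 0)).exists
  refine ⟨m, hm2, ?_⟩
  have hf : (0 : ℝ) < m.factorial := by exact_mod_cast Nat.factorial_pos m
  rw [div_lt_div_iff₀ hf (by positivity)] at hm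
  have : ((a * c ^ m : ℕ) : ℝ) < m.factorial := by
    push_cast
    have h0 : (0 : ℝ) ≤ (c : ℝ) ^ m := by positivity
    nlinarith
  exact_mod_cast this

/-- The counting lemma: for a suitable number `m` of chords some matching `π` is not compatible
with any coarse map with given parameters. -/
lemma block {X : Type*} [MetricSpace X] (x : X) (L N M : ℕ)
    (hN : ∀ y : X, (Metric.closedBall y (L : ℝ)).encard ≤ N) (t w : ℕ) :
    ∃ m : ℕ, 0 < m ∧ ∃ π : Equiv.Perm (Fin m), ∀ g : ℕ → X, g 0 = x →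
      (∀ i, dist (g i) (g (i + 1)) ≤ L) →
      (∀ i : Fin m, {j : Fin m | dist (g (t + w * (i + 1))) (g (t + w * (m + j + 1))) ≤ L}.encard
        ≤ M) →
      ∃ i : Fin m, (L : ℝ) < dist (g (t + w * (i + 1))) (g (t + w * (m + π i + 1))) := by
  classical
  have hNpos : 0 < N := by
    have h1 := hN x
    have h2 : x ∈ Metric.closedBall x (L : ℝ) := Metric.mem_closedBall_self (by positivity)
    have h3 : 1 ≤ (Metric.closedBall x (L : ℝ)).encard :=
      Set.one_le_encard_iff_nonempty.mpr ⟨x, h2⟩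
    have : (1 : ℕ∞) ≤ N := h3.trans h1
    exact_mod_cast this
  have : Nonempty X := ⟨x⟩
  choose E hE using fun y : X => exists_enum (Metric.closedBall y (L : ℝ)) N (hN y)
  obtain ⟨m, hm0, hm⟩ := exists_factorial_gt (N ^ t) (N ^ (w * 2) * M)
  refine ⟨m, hm0, ?_⟩
  by_contra hcon
  push Not at hcon
  choose g hg0 hgL hgM hgle using hcon
  have : Nonempty (Fin m) := ⟨⟨0, hm0⟩⟩
  set n := t + w * (2 * m) with hn
  -- decode a code into a path
  let ext : (Fin n → Fin N) → ℕ → Fin N := fun c i => if h : i < n then c ⟨i, h⟩ else ⟨0, hNpos⟩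
  -- enumerations of close indices
  have henum : ∀ (G : ℕ → X) (i : Fin m), ∃ F : Fin M → Fin m,
      {j : Fin m | dist (G (t + w * (i + 1))) (G (t + w * (m + j + 1))) ≤ L}.encard ≤ M →
      {j : Fin m | dist (G (t + w * (i + 1))) (G (t + w * (m + j + 1))) ≤ L} ⊆ Set.range F := by
    intro G i
    by_cases h : {j : Fin m | dist (G (t + w * (i + 1))) (G (t + w * (m + j + 1))) ≤ L}.encard ≤ M
    · obtain ⟨F, hF⟩ := exists_enum _ M h
      exact ⟨F, fun _ => hF⟩
    · by_cases hM : 0 < M
      · exact ⟨fun _ => ⟨0, hm0⟩, fun h' => absurd h' h⟩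
      · have : M = 0 := by omega
        subst this
        exact ⟨fun k => k.elim0, fun h' => absurd h' h⟩
  choose F hF using henum
  -- the code of a permutation
  have hcode : ∀ π : Equiv.Perm (Fin m), ∃ p : (Fin n → Fin N) × (Fin m → Fin M),
      ∀ i, F (decode E x (ext p.1)) i (p.2 i) = π i := by
    intro π
    have hw : ∀ i : ℕ, ∃ k : Fin N, E (g π i) k = g π (i + 1) := by
      intro i
      have : g π (i + 1) ∈ Metric.closedBall (g π i) (L : ℝ) := by
        rw [Metric.mem_closedBall, dist_comm]; exact hgL π i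
      exact hE _ this
    choose v hv using hw
    have hdec : ∀ i, decode E x v i = g π i := by
      intro i
      induction i with
      | zero => rw [decode, hg0]
      | succ i ih => rw [decode, ih, hv]
    have hdec2 : ∀ i ≤ n, decode E x (ext (fun k : Fin n => v k)) i = g π i := by
      intro i hi
      rw [← hdec i]
      apply decode_congr E x _ _ n _ i hi
      intro l hl
      simp only [ext, hl, dif_pos]
    have h2 : ∀ i : Fin m, ∃ k : Fin M,
        F (decode E x (ext (fun k : Fin n => v k))) i k = π i := by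
      intro i
      have hi := i.2
      have e1 : decode E x (ext (fun k : Fin n => v k)) (t + w * (i + 1))
          = g π (t + w * (i + 1)) := by
        apply hdec2
        rw [hn]
        have : w * (i + 1) ≤ w * (2 * m) := Nat.mul_le_mul_left _ (by omega)
        omega
      have e2 : ∀ j : Fin m, decode E x (ext (fun k : Fin n => v k)) (t + w * (m + j + 1))
          = g π (t + w * (m + j + 1)) := by
        intro j
        have hj := j.2
        apply hdec2
        rw [hn]
        have : w * (m + j + 1) ≤ w * (2 * m) := Nat.mul_le_mul_left _ (by omega)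
        omega
      have h3 := hF (decode E x (ext (fun k : Fin n => v k))) i
      simp only [e1, e2] at h3
      exact h3 (hgM π i) (hgle π i)
    choose c hc using h2
    exact ⟨(fun k : Fin n => v k, c), hc⟩
  choose code hcode using hcode
  have hinj : Function.Injective code := by
    intro π π' h
    ext i
    rw [← hcode π i, ← hcode π' i, h]
  have hcard := Fintype.card_le_of_injective code hinj
  rw [Fintype.card_perm, Fintype.card_prod, Fintype.card_fun, Fintype.card_fun, Fintype.card_fin,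
    Fintype.card_fin, Fintype.card_fin, Fintype.card_fin] at hcard
  have : N ^ n * M ^ m = N ^ t * (N ^ (w * 2) * M) ^ m := by
    rw [hn, pow_add, mul_pow, ← pow_mul]
    ring_nf
  omega


/-- A chord relation on the natural numbers: every point is the source of at most one chord, the
target of at most one chord, and never both. -/
structure Chords (C : ℕ → ℕ → Prop) : Prop where
  src : ∀ {x y y'}, C x y → C x y' → y = y'
  tgt : ∀ {x x' y}, C x y → C x' y → x = x'
  ne : ∀ {x y z}, C x y → ¬ C z x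

/-- The ray `0, 1, 2, …` with the chords added. -/
def rayG (C : ℕ → ℕ → Prop) : SimpleGraph ℕ :=
  SimpleGraph.fromRel (fun x y => y = x + 1 ∨ C x y)

lemma rayG_adj {C : ℕ → ℕ → Prop} {x y : ℕ} :
    (rayG C).Adj x y ↔ x ≠ y ∧ ((y = x + 1 ∨ C x y) ∨ (x = y + 1 ∨ C y x)) := by
  rw [rayG, SimpleGraph.fromRel_adj]

lemma adj_succ (C : ℕ → ℕ → Prop) (x : ℕ) : (rayG C).Adj x (x + 1) := by
  rw [rayG_adj]; exact ⟨by omega, Or.inl (Or.inl rfl)⟩

lemma adj_chord {C : ℕ → ℕ → Prop} (hC : Chords C) {x y : ℕ} (h : C x y) :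
    (rayG C).Adj x y := by
  rw [rayG_adj]
  refine ⟨?_, Or.inl (Or.inr h)⟩
  rintro rfl
  exact hC.ne h h

lemma reach_zero (C : ℕ → ℕ → Prop) (x : ℕ) : (rayG C).Reachable 0 x := by
  induction x with
  | zero => exact SimpleGraph.Reachable.refl _
  | succ x ih => exact ih.trans (adj_succ C x).reachable

lemma conn (C : ℕ → ℕ → Prop) : (rayG C).Connected := by
  have : (rayG C).Preconnected := fun x y => (reach_zero C x).symm.trans (reach_zero C y)
  exact ⟨this⟩

lemma dist_add_le (C : ℕ → ℕ → Prop) (x k : ℕ) : (rayG C).dist x (x + k) ≤ k := by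
  induction k with
  | zero => simp
  | succ k ih =>
    have h1 := (conn C).dist_triangle (u := x) (v := x + k) (w := x + (k + 1))
    have h2 : (rayG C).dist (x + k) (x + (k + 1)) = 1 :=
      SimpleGraph.dist_eq_one_iff_adj.mpr (adj_succ C (x + k))
    omega

/-- A Lipschitz function on the edges is Lipschitz. -/
lemma lip_of_adj {E : Type*} [SeminormedAddCommGroup E] (G : SimpleGraph ℕ) (hG : G.Connected)
    (ξ : ℕ → E) (δ : ℝ) (h : ∀ x y, G.Adj x y → ‖ξ x - ξ y‖ ≤ δ) (x y : ℕ) :
    ‖ξ x - ξ y‖ ≤ δ * G.dist x y := by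
  obtain ⟨p, hp⟩ := hG.exists_walk_length_eq_dist x y
  rw [← hp]
  clear hp
  induction p with
  | nil => simp
  | @cons u v w hadj p ih =>
    rw [SimpleGraph.Walk.length_cons]
    have h1 : ‖ξ u - ξ w‖ ≤ ‖ξ u - ξ v‖ + ‖ξ v - ξ w‖ := by
      rw [show ξ u - ξ w = (ξ u - ξ v) + (ξ v - ξ w) by abel]
      exact norm_add_le _ _
    have h2 := h u v hadj
    push_cast
    linarith

/-- The finite combinatorial balls. -/
def ballF (nb : ℕ → Finset ℕ) : ℕ → ℕ → Finset ℕ
  | 0, x => {x}
  | r + 1, x => insert x ((nb x).biUnion (ballF nb r))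

lemma self_mem_ballF (nb : ℕ → Finset ℕ) (r x : ℕ) : x ∈ ballF nb r x := by
  cases r with
  | zero => rw [ballF]; exact Finset.mem_singleton_self x
  | succ r => rw [ballF]; exact Finset.mem_insert_self _ _

lemma card_ballF (nb : ℕ → Finset ℕ) (h : ∀ x, (nb x).card ≤ 4) (r x : ℕ) :
    (ballF nb r x).card ≤ 5 ^ r := by
  induction r generalizing x with
  | zero => simp [ballF]
  | succ r ih =>
    rw [ballF]
    have h1 := Finset.card_insert_le x ((nb x).biUnion (ballF nb r))
    have h2 : ((nb x).biUnion (ballF nb r)).card ≤ (nb x).card * 5 ^ r :=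
      Finset.card_biUnion_le_card_mul _ _ _ (fun y _ => ih y)
    have h3 : (nb x).card * 5 ^ r ≤ 4 * 5 ^ r := Nat.mul_le_mul_right _ (h x)
    have h4 : 1 ≤ 5 ^ r := Nat.one_le_pow _ _ (by norm_num)
    rw [pow_succ]
    omega

lemma mem_ballF_of_walk (G : SimpleGraph ℕ) (nb : ℕ → Finset ℕ)
    (hnb : ∀ x y, G.Adj x y → y ∈ nb x) (r : ℕ) :
    ∀ (x y : ℕ) (p : G.Walk x y), p.length ≤ r → y ∈ ballF nb r x := by
  induction r with
  | zero =>
    intro x y p hp
    cases p with
    | nil => exact self_mem_ballF _ _ _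
    | cons h p => rw [SimpleGraph.Walk.length_cons] at hp; omega
  | succ r ih =>
    intro x y p hp
    cases p with
    | nil => exact self_mem_ballF _ _ _
    | @cons _ z _ h p =>
      rw [SimpleGraph.Walk.length_cons] at hp
      rw [ballF, Finset.mem_insert, Finset.mem_biUnion]
      exact Or.inr ⟨z, hnb _ _ h, ih z y p (by omega)⟩

/-- Uniform bound on the balls of the chord graphs, independent of the chords. -/
lemma ball_bound {C : ℕ → ℕ → Prop} (hC : Chords C) (r x : ℕ) :
    {y : ℕ | (rayG C).dist x y ≤ r}.encard ≤ (5 ^ r : ℕ) := by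
  classical
  let pa : ℕ → ℕ := fun x => if h : ∃ y, C x y then h.choose else 0
  let pb : ℕ → ℕ := fun x => if h : ∃ y, C y x then h.choose else 0
  have hpa : ∀ x y, C x y → y = pa x := by
    intro x y h
    have hex : ∃ y, C x y := ⟨y, h⟩
    have : pa x = hex.choose := dif_pos hex
    rw [this]
    exact hC.src h hex.choose_spec
  have hpb : ∀ x y, C y x → y = pb x := by
    intro x y h
    have hex : ∃ y, C y x := ⟨y, h⟩
    have : pb x = hex.choose := dif_pos hex
    rw [this]
    exact hC.tgt h hex.choose_spec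
  let nb : ℕ → Finset ℕ := fun x => {x + 1, x - 1, pa x, pb x}
  have hnb : ∀ x y, (rayG C).Adj x y → y ∈ nb x := by
    intro x y h
    rw [rayG_adj] at h
    simp only [nb, Finset.mem_insert, Finset.mem_singleton]
    rcases h with ⟨_, (h | h) | (h | h)⟩
    · exact Or.inl h
    · exact Or.inr (Or.inr (Or.inl (hpa x y h)))
    · right; left; omega
    · exact Or.inr (Or.inr (Or.inr (hpb x y h)))
  have hcard : ∀ x, (nb x).card ≤ 4 := fun x => Finset.card_le_four
  have hsub : {y : ℕ | (rayG C).dist x y ≤ r} ⊆ (ballF nb r x : Set ℕ) := by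
    intro y hy
    obtain ⟨p, hp⟩ := (conn C).exists_walk_length_eq_dist x y
    exact mem_ballF_of_walk _ nb hnb r x y p (by rw [hp]; exact hy)
  calc {y : ℕ | (rayG C).dist x y ≤ r}.encard ≤ (ballF nb r x : Set ℕ).encard :=
        Set.encard_le_encard hsub
    _ = (ballF nb r x).card := Set.encard_coe_eq_coe_finsetCard _
    _ ≤ (5 ^ r : ℕ) := by exact_mod_cast card_ballF nb hcard r x

/-- The point mass. -/
noncomputable def pt (a : ℕ) : lp (fun _ : ℕ => ℝ) 1 := lp.single 1 a (1 : ℝ)

lemma norm_pt (a : ℕ) : ‖pt a‖ = 1 := by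
  rw [pt, lp.norm_single (by norm_num)]; simp

lemma pt_self (a : ℕ) : (pt a : ℕ → ℝ) a = 1 := lp.single_apply_self _ _ _

lemma pt_ne (a i : ℕ) (h : i ≠ a) : (pt a : ℕ → ℝ) i = 0 := lp.single_apply_ne _ _ _ h

lemma comb_apply (a b i : ℕ) (s t : ℝ) :
    (s • pt a + t • pt b : lp (fun _ : ℕ => ℝ) 1) i
      = s * (pt a : ℕ → ℝ) i + t * (pt b : ℕ → ℝ) i := rfl

lemma norm_comb (a b : ℕ) (s t : ℝ) (hs : 0 ≤ s) (ht : 0 ≤ t) (hst : s + t = 1) :
    ‖s • pt a + t • pt b‖ = 1 := by
  by_cases hab : a = b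
  · subst hab
    rw [← add_smul, hst, one_smul, norm_pt]
  apply le_antisymm
  · refine (norm_add_le _ _).trans ?_
    rw [norm_smul, norm_smul, norm_pt, norm_pt, Real.norm_of_nonneg hs, Real.norm_of_nonneg ht]
    linarith
  · have h := lp.sum_rpow_le_norm_rpow (p := 1) (by norm_num) (s • pt a + t • pt b) {a, b}
    rw [Finset.sum_pair hab] at h
    have e1 : (s • pt a + t • pt b : lp (fun _ : ℕ => ℝ) 1) a = s := by
      rw [comb_apply, pt_self, pt_ne b a hab]; ring
    have e2 : (s • pt a + t • pt b : lp (fun _ : ℕ => ℝ) 1) b = t := by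
      rw [comb_apply, pt_self, pt_ne a b (Ne.symm hab)]; ring
    rw [e1, e2] at h
    simp only [ENNReal.toReal_one, Real.rpow_one, Real.norm_of_nonneg hs,
      Real.norm_of_nonneg ht] at h
    linarith

/-- Property A for the chord graphs whose chords are far apart at infinity. -/
lemma propA_aux {C : ℕ → ℕ → Prop} (hC : Chords C) (q s : ℕ) (hq : 0 < q) (hqs : q ∣ s)
    (hs : ∀ x y, C x y → (x ≤ s ∧ y ≤ s) ∨ (s < x ∧ s < y ∧ q ∣ x ∧ q ∣ y)) :
    ∃ ξ : ℕ → lp (fun _ : ℕ => ℝ) 1, (∀ x, ‖ξ x‖ = 1) ∧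
      (∀ x z, ξ x z ≠ 0 → (rayG C).dist x z ≤ s + q + 1) ∧
      (∀ x y, (rayG C).Adj x y → ‖ξ x - ξ y‖ ≤ 2 / q) := by
  classical
  have hqR : (0 : ℝ) < q := by exact_mod_cast hq
  let c : ℕ → ℕ := fun a => if a ≤ s then 0 else if h : ∃ x, C x a then h.choose else a
  have c0 : ∀ a, a ≤ s → c a = 0 := fun a ha => if_pos ha
  have c1 : ∀ a, s < a → (rayG C).dist a (c a) ≤ 1 := by
    intro a ha
    have h1 : c a = if h : ∃ x, C x a then h.choose else a := if_neg (by omega)
    rw [h1]
    split_ifs with h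
    · have := adj_chord hC h.choose_spec
      rw [SimpleGraph.dist_comm, SimpleGraph.dist_eq_one_iff_adj.mpr this]
    · simp
  have c2 : ∀ x y, C x y → s < x → s < y → c x = c y := by
    intro x y h hx hy
    have hex : ∃ z, C z y := ⟨x, h⟩
    have hnex : ¬ ∃ z, C z x := by
      rintro ⟨z, hz⟩
      exact hC.ne h hz
    have h1 : c x = x := by
      simp only [c, if_neg (show ¬ x ≤ s by omega), dif_neg hnex]
    have h2 : c y = hex.choose := by
      simp only [c, if_neg (show ¬ y ≤ s by omega), dif_pos hex]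
    rw [h1, h2]
    exact hC.tgt h hex.choose_spec
  let ξ : ℕ → lp (fun _ : ℕ => ℝ) 1 := fun x =>
    (1 - ((x % q : ℕ) : ℝ) / q) • pt (c (q * (x / q))) +
      (((x % q : ℕ) : ℝ) / q) • pt (c (q * (x / q) + q))
  have hξ : ∀ x, ξ x = (1 - ((x % q : ℕ) : ℝ) / q) • pt (c (q * (x / q))) +
      (((x % q : ℕ) : ℝ) / q) • pt (c (q * (x / q) + q)) := fun x => rfl
  -- values at the multiples of `q`
  have hmul : ∀ x, q ∣ x → ξ x = pt (c x) := by
    intro x hx
    rw [hξ, Nat.mod_eq_zero_of_dvd hx, Nat.mul_div_cancel' hx]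
    simp
  -- values on the initial part
  have hinit : ∀ x, x ≤ s → ξ x = pt 0 := by
    intro x hx
    rcases Nat.lt_or_ge x s with h | h
    · have h1 : q * (x / q) + q ≤ s := by
        obtain ⟨k, rfl⟩ := hqs
        have : x / q < k := Nat.div_lt_of_lt_mul h
        calc q * (x / q) + q = q * (x / q + 1) := by ring
          _ ≤ q * k := Nat.mul_le_mul_left _ this
      rw [hξ, c0 _ h1, c0 _ (by omega), ← add_smul]
      simp
    · have : x = s := by omega
      subst this
      rw [hmul x hqs, c0 x le_rfl]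
  -- consecutive points
  have hstep : ∀ x, ‖ξ x - ξ (x + 1)‖ ≤ 2 / q := by
    intro x
    have hdm := Nat.div_add_mod x q
    have hml := Nat.mod_lt x hq
    have key : ξ (x + 1) = (1 - (((x % q : ℕ) : ℝ) + 1) / q) • pt (c (q * (x / q))) +
      ((((x % q : ℕ) : ℝ) + 1) / q) • pt (c (q * (x / q) + q)) := by
      rcases Nat.lt_or_ge (x % q + 1) q with h | h
      · have h1 : (x + 1) / q = x / q := by
          rw [Nat.div_eq_iff hq]
          constructor
          · have : x / q * q = q * (x / q) := mul_comm _ _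
            omega
          · have : x / q * q = q * (x / q) := mul_comm _ _
            omega
        have h2 : (x + 1) % q = x % q + 1 := by
          have := Nat.div_add_mod (x + 1) q
          rw [h1] at this
          omega
        rw [hξ, h1, h2]
        push_cast
        rfl
      · have h0 : x % q + 1 = q := by omega
        have h1 : x + 1 = q * (x / q) + q := by omega
        have h2 : q ∣ x + 1 := by
          rw [h1]; exact Dvd.intro (x / q + 1) (by ring)
        rw [hmul _ h2, h1]
        have h3 : (((x % q : ℕ) : ℝ) + 1) = q := by exact_mod_cast h0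
        rw [h3, div_self hqR.ne']
        simp
    rw [key, hξ]
    have e : (1 - ((x % q : ℕ) : ℝ) / q) • pt (c (q * (x / q))) +
        (((x % q : ℕ) : ℝ) / q) • pt (c (q * (x / q) + q)) -
        ((1 - (((x % q : ℕ) : ℝ) + 1) / q) • pt (c (q * (x / q))) +
          ((((x % q : ℕ) : ℝ) + 1) / q) • pt (c (q * (x / q) + q)))
        = (1 / (q : ℝ)) • pt (c (q * (x / q))) - (1 / (q : ℝ)) • pt (c (q * (x / q) + q)) := by
      module
    rw [e]
    refine (norm_sub_le _ _).trans ?_
    rw [norm_smul, norm_smul, norm_pt, norm_pt, Real.norm_of_nonneg (by positivity)]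
    apply le_of_eq
    ring
  refine ⟨ξ, ?_, ?_, ?_⟩
  · intro x
    have hml : ((x % q : ℕ) : ℝ) ≤ q := by exact_mod_cast (Nat.mod_lt x hq).le
    have h1 : ((x % q : ℕ) : ℝ) / q ≤ 1 := by rw [div_le_one hqR]; exact hml
    exact norm_comb _ _ _ _ (by linarith) (by positivity) (by ring)
  · intro x z hz
    have hdm := Nat.div_add_mod x q
    have hml := Nat.mod_lt x hq
    have hz2 : z = c (q * (x / q)) ∨ z = c (q * (x / q) + q) := by
      by_contra hcon
      push Not at hcon
      apply hz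
      rw [hξ, comb_apply, pt_ne _ _ hcon.1, pt_ne _ _ hcon.2]; ring
    have hx0 : (rayG C).dist x 0 ≤ x := by
      have := dist_add_le C 0 x
      rw [zero_add] at this
      rwa [SimpleGraph.dist_comm]
    rcases hz2 with rfl | rfl
    · rcases Nat.lt_or_ge s (q * (x / q)) with h | h
      · have h1 := c1 _ h
        have h2 := dist_add_le C (q * (x / q)) (x % q)
        rw [hdm, SimpleGraph.dist_comm] at h2
        have h3 := (conn C).dist_triangle (u := x) (v := q * (x / q)) (w := c (q * (x / q)))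
        omega
      · rw [c0 _ h]
        omega
    · rcases Nat.lt_or_ge s (q * (x / q) + q) with h | h
      · have h1 := c1 _ h
        have h2 := dist_add_le C x (q - x % q)
        have h4 : x + (q - x % q) = q * (x / q) + q := by omega
        rw [h4] at h2
        have h3 := (conn C).dist_triangle (u := x) (v := q * (x / q) + q)
          (w := c (q * (x / q) + q))
        omega
      · rw [c0 _ h]
        omega
  · intro x y hadj
    have hchord : ∀ x y, C x y → ‖ξ x - ξ y‖ ≤ 2 / q := by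
      intro x y h
      have : ξ x = ξ y := by
        rcases hs x y h with ⟨h1, h2⟩ | ⟨h1, h2, h3, h4⟩
        · rw [hinit x h1, hinit y h2]
        · rw [hmul x h3, hmul y h4, c2 x y h h1 h2]
      rw [this, sub_self, norm_zero]
      positivity
    rw [rayG_adj] at hadj
    rcases hadj with ⟨_, (h | h) | (h | h)⟩
    · subst h; exact hstep x
    · exact hchord x y h
    · subst h; rw [norm_sub_rev]; exact hstep y
    · rw [norm_sub_rev]; exact hchord y x h

/-- The vertex set of the chord graphs (a copy of the natural numbers). -/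
def Ray : Type := ℕ

/-- From numbers to vertices. -/
def toRay (n : ℕ) : Ray := n

/-- From vertices to numbers. -/
def ofRay (x : Ray) : ℕ := x

/-- The graph metric on the chord graph. -/
@[reducible] noncomputable def rayMetric (C : ℕ → ℕ → Prop) : MetricSpace Ray where
  dist x y := ((rayG C).dist (ofRay x) (ofRay y) : ℝ)
  dist_self x := by rw [SimpleGraph.dist_self]; simp
  dist_comm x y := by rw [SimpleGraph.dist_comm]
  dist_triangle x y z := by exact_mod_cast (conn C).dist_triangle
  eq_of_dist_eq_zero := by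
    intro x y h
    have h' : (rayG C).dist (ofRay x) (ofRay y) = 0 := by exact_mod_cast h
    exact (conn C).dist_eq_zero_iff.mp h'

/-- Bounded geometry and Property A of the chord graphs. -/
lemma good {C : ℕ → ℕ → Prop} (hC : Chords C)
    (hs : ∀ j : ℕ, ∃ s : ℕ, 2 ^ j ∣ s ∧
      ∀ x y, C x y → (x ≤ s ∧ y ≤ s) ∨ (s < x ∧ s < y ∧ 2 ^ j ∣ x ∧ 2 ^ j ∣ y)) :
    @BoundedGeometry Ray (rayMetric C) ∧ @PropertyA Ray (rayMetric C) := by
  let _ := rayMetric C
  have hd : ∀ x y : Ray, dist x y = ((rayG C).dist (ofRay x) (ofRay y) : ℝ) := fun x y => rfl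
  constructor
  · intro r hr
    refine ⟨5 ^ ⌊r⌋₊, fun x => ?_⟩
    have hsub : Metric.closedBall x r ⊆
        {y : Ray | (rayG C).dist (ofRay x) (ofRay y) ≤ ⌊r⌋₊} := by
      intro y hy
      rw [Metric.mem_closedBall, dist_comm, hd] at hy
      exact Nat.le_floor hy
    exact (Set.encard_le_encard hsub).trans (ball_bound hC _ (ofRay x))
  · intro R ε hR hε
    obtain ⟨j, hj⟩ := exists_nat_gt (2 * R / ε)
    obtain ⟨s, hsd, hs'⟩ := hs j
    obtain ⟨ξ, h1, h2, h3⟩ := propA_aux hC (2 ^ j) s (by positivity) hsd hs'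
    refine ⟨((s + 2 ^ j + 2 : ℕ) : ℝ), by positivity, ξ, h1, ?_, ?_⟩
    · intro x z hz
      by_contra hne
      apply hz
      have h4 := h2 x z hne
      rw [Metric.mem_ball, dist_comm, hd]
      have h5 : (rayG C).dist (ofRay x) (ofRay z) < s + 2 ^ j + 2 := by
        have h6 : (rayG C).dist (ofRay x) (ofRay z) ≤ s + 2 ^ j + 1 := h4
        omega
      exact_mod_cast h5
    · intro x y hxy
      rw [hd] at hxy
      have h4 := lip_of_adj (rayG C) (conn C) ξ _ h3 x y
      refine h4.trans ?_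
      have h5 : (j : ℝ) < 2 ^ j := by exact_mod_cast Nat.lt_two_pow_self
      have h6 : (0 : ℝ) < 2 ^ j := by positivity
      have h7 : 2 * R / ε < 2 ^ j := hj.trans h5
      rw [div_lt_iff₀ hε] at h7
      push_cast
      rw [div_mul_eq_mul_div, div_le_iff₀ h6]
      have h8 : (0 : ℝ) ≤ (rayG C).dist (ofRay x) (ofRay y) := by positivity
      have h9 : 2 * ((rayG C).dist (ofRay x) (ofRay y) : ℝ) ≤ ε * 2 ^ j := by nlinarith
      exact h9

lemma countable_of_bg {X : Type*} [MetricSpace X] (h : BoundedGeometry X) : Countable X := by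
  rcases isEmpty_or_nonempty X with hX | ⟨⟨x⟩⟩
  · infer_instance
  have hun : (Set.univ : Set X) = ⋃ n : ℕ, Metric.closedBall x ((n : ℝ) + 1) := by
    symm
    rw [Set.eq_univ_iff_forall]
    intro y
    obtain ⟨n, hn⟩ := exists_nat_gt (dist y x)
    rw [Set.mem_iUnion]
    exact ⟨n, by rw [Metric.mem_closedBall]; linarith⟩
  rw [← Set.countable_univ_iff, hun]
  apply Set.countable_iUnion
  intro n
  obtain ⟨N, hN⟩ := h ((n : ℝ) + 1) (by positivity)
  exact (Set.finite_of_encard_le_coe (hN x)).countable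

/-- No bounded geometry space coarsely contains all bounded geometry spaces with Property A. -/
theorem result : ∀ (X : Type u) [MetricSpace X], BoundedGeometry X →
    ∃ (Y : Type) (_ : MetricSpace Y), BoundedGeometry Y ∧ PropertyA Y ∧
      ¬ ∃ f : Y → X, CoarseEmbedding f := by
  intro X _ hX
  rcases isEmpty_or_nonempty X with hE | hNE
  · have hg := good (C := fun _ _ => False) ⟨fun h => h.elim, fun h => h.elim, fun h => h.elim⟩
      (fun j => ⟨0, Dvd.intro 0 rfl, fun x y h => h.elim⟩)
    refine ⟨Ray, rayMetric _, hg.1, hg.2, ?_⟩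
    rintro ⟨f, _⟩
    exact hE.elim (f (toRay 0))
  have hcount := countable_of_bg hX
  obtain ⟨e, he⟩ := exists_surjective_nat (X × ℕ × ℕ)
  have hN : ∀ k : ℕ, ∃ N : ℕ, ∀ y : X,
      (Metric.closedBall y ((e k).2.1 : ℝ)).encard ≤ N := by
    intro k
    obtain ⟨N, hN⟩ := hX (((e k).2.1 : ℝ) + 1) (by positivity)
    refine ⟨N, fun y => (Set.encard_le_encard ?_).trans (hN y)⟩
    exact Metric.closedBall_subset_closedBall (by linarith)
  choose N hN using hN
  choose m hm0 π hπ using fun k t : ℕ => block (e k).1 (e k).2.1 (N k) (e k).2.2 (hN k) t (2 ^ k)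
  -- the starting points of the blocks
  let s : ℕ → ℕ := fun k => Nat.rec 0 (fun k sk => 2 ^ (k + 1) * (sk + m k sk + 1)) k
  have s0 : s 0 = 0 := rfl
  have hsS : ∀ k, s (k + 1) = 2 ^ (k + 1) * (s k + m k (s k) + 1) := fun k => rfl
  have hsdvd : ∀ k, 2 ^ k ∣ s k := by
    intro k
    cases k with
    | zero => rw [s0]; exact Dvd.intro 0 rfl
    | succ k => rw [hsS]; exact Dvd.intro _ rfl
  have hslt : ∀ k, s k + 2 ^ k * (2 * m k (s k)) < s (k + 1) := by
    intro k
    rw [hsS, pow_succ]
    have h1 : 1 ≤ 2 ^ k := Nat.one_le_two_pow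
    have h2 : s k ≤ 2 ^ k * s k := Nat.le_mul_of_pos_left _ (by omega)
    nlinarith
  have hmono : StrictMono s := strictMono_nat_of_lt_succ (fun k => by have := hslt k; omega)
  have hblock : ∀ k k' a, s k < a → a < s (k + 1) → s k' < a → a < s (k' + 1) → k = k' := by
    intro k k' a h1 h2 h3 h4
    have h5 : k < k' + 1 := hmono.lt_iff_lt.mp (h1.trans h4)
    have h6 : k' < k + 1 := hmono.lt_iff_lt.mp (h3.trans h2)
    omega
  -- the chords
  let C : ℕ → ℕ → Prop := fun x y => ∃ k, ∃ i : Fin (m k (s k)),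
    x = s k + 2 ^ k * (i + 1) ∧ y = s k + 2 ^ k * (m k (s k) + π k (s k) i + 1)
  have hU : ∀ k (i : Fin (m k (s k))), s k < s k + 2 ^ k * (i + 1) ∧
      s k + 2 ^ k * (i + 1) ≤ s k + 2 ^ k * m k (s k) := by
    intro k i
    have hi := i.2
    have h1 : 0 < 2 ^ k := by positivity
    refine ⟨?_, ?_⟩
    · have : 0 < 2 ^ k * ((i : ℕ) + 1) := by positivity
      omega
    · have : 2 ^ k * ((i : ℕ) + 1) ≤ 2 ^ k * m k (s k) := Nat.mul_le_mul_left _ hi
      omega
  have hV : ∀ k (i : Fin (m k (s k))), s k + 2 ^ k * m k (s k) <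
      s k + 2 ^ k * (m k (s k) + i + 1) ∧ s k + 2 ^ k * (m k (s k) + i + 1) < s (k + 1) := by
    intro k i
    have hi := i.2
    have h1 : 0 < 2 ^ k := by positivity
    refine ⟨?_, ?_⟩
    · have : 2 ^ k * m k (s k) < 2 ^ k * (m k (s k) + i + 1) :=
        Nat.mul_lt_mul_of_pos_left (by omega) h1
      omega
    · have : 2 ^ k * (m k (s k) + i + 1) ≤ 2 ^ k * (2 * m k (s k)) :=
        Nat.mul_le_mul_left _ (by omega)
      have := hslt k
      omega
  have hU2 : ∀ k (i : Fin (m k (s k))), s k + 2 ^ k * (i + 1) < s (k + 1) := by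
    intro k i
    have h1 := (hU k i).2
    have h2 := hslt k
    have h3 : 2 ^ k * m k (s k) ≤ 2 ^ k * (2 * m k (s k)) := Nat.mul_le_mul_left _ (by omega)
    omega
  have hV2 : ∀ k (i : Fin (m k (s k))), s k < s k + 2 ^ k * (m k (s k) + i + 1) := by
    intro k i
    have := (hV k i).1
    omega
  have hC : Chords C := by
    refine ⟨?_, ?_, ?_⟩
    · rintro x y y' ⟨k, i, hx, hy⟩ ⟨k', i', hx', hy'⟩
      have hk : k = k' := hblock k k' x (hx ▸ (hU k i).1) (hx ▸ hU2 k i) (hx' ▸ (hU k' i').1)
        (hx' ▸ hU2 k' i')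
      subst hk
      have h1 : 2 ^ k * ((i : ℕ) + 1) = 2 ^ k * ((i' : ℕ) + 1) := by omega
      have h2 : (i : ℕ) + 1 = i' + 1 := Nat.eq_of_mul_eq_mul_left (by positivity) h1
      have h3 : i = i' := Fin.ext (by omega)
      subst h3
      rw [hy, hy']
    · rintro x x' y ⟨k, i, hx, hy⟩ ⟨k', i', hx', hy'⟩
      have hk : k = k' := hblock k k' y (hy ▸ hV2 k _) (hy ▸ (hV k _).2) (hy' ▸ hV2 k' _)
        (hy' ▸ (hV k' _).2)
      subst hk
      have h1 : 2 ^ k * (m k (s k) + (π k (s k) i : ℕ) + 1)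
          = 2 ^ k * (m k (s k) + (π k (s k) i' : ℕ) + 1) := by omega
      have h2 := Nat.eq_of_mul_eq_mul_left (by positivity) h1
      have h3 : π k (s k) i = π k (s k) i' := Fin.ext (by omega)
      have h4 : i = i' := (π k (s k)).injective h3
      subst h4
      rw [hx, hx']
    · rintro x y z ⟨k, i, hx, hy⟩ ⟨k', i', hx', hy'⟩
      have hk : k = k' := hblock k k' x (hx ▸ (hU k i).1) (hx ▸ hU2 k i) (hy' ▸ hV2 k' _)
        (hy' ▸ (hV k' _).2)
      subst hk
      have h1 := (hU k i).2
      have h2 := (hV k (π k (s k) i')).1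
      omega
  have hg := good hC (by
    intro j
    refine ⟨s j, hsdvd j, ?_⟩
    rintro x y ⟨k, i, hx, hy⟩
    rcases Nat.lt_or_ge k j with h | h
    · left
      have h1 : s (k + 1) ≤ s j := hmono.monotone h
      have h2 := hU2 k i
      have h3 := (hV k (π k (s k) i)).2
      omega
    · right
      have h1 : s j ≤ s k := hmono.monotone h
      have h2 := (hU k i).1
      have h3 := hV2 k (π k (s k) i)
      have h4 : 2 ^ j ∣ 2 ^ k := pow_dvd_pow 2 h
      have h5 : 2 ^ j ∣ s k := h4.trans (hsdvd k)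
      refine ⟨by omega, by omega, ?_, ?_⟩
      · rw [hx]; exact dvd_add h5 (Dvd.dvd.mul_right h4 _)
      · rw [hy]; exact dvd_add h5 (Dvd.dvd.mul_right h4 _))
  let _ := rayMetric C
  refine ⟨Ray, rayMetric C, hg.1, hg.2, ?_⟩
  rintro ⟨f, ρm, ρp, hρm, hρp, htend, hf⟩
  have hd : ∀ x y : ℕ, dist (toRay x) (toRay y) = ((rayG C).dist x y : ℝ) := fun x y => rfl
  -- parameters of `f`
  obtain ⟨L, hL⟩ := exists_nat_ge (ρp 1)
  obtain ⟨R, hR⟩ := (htend.eventually_gt_atTop (L : NNReal)).exists_forall_of_atTop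
  obtain ⟨R0, hR0⟩ := exists_nat_ge R
  obtain ⟨k, hk⟩ := he (f (toRay 0), L, 5 ^ R0)
  have hadjL : ∀ x y : ℕ, (rayG C).Adj x y → dist (f (toRay x)) (f (toRay y)) ≤ (L : ℝ) := by
    intro x y h
    have h1 : nndist (toRay x) (toRay y) = 1 := by
      apply NNReal.coe_injective
      rw [coe_nndist, hd, SimpleGraph.dist_eq_one_iff_adj.mpr h]
      simp
    have h2 := (hf (toRay x) (toRay y)).2
    rw [h1] at h2
    have h3 := h2.trans hL
    rw [← coe_nndist]
    exact_mod_cast h3
  have hclose : ∀ x y : ℕ, dist (f (toRay x)) (f (toRay y)) ≤ (L : ℝ) →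
      (rayG C).dist x y ≤ R0 := by
    intro x y h
    by_contra hcon
    push Not at hcon
    have h1 : R ≤ nndist (toRay x) (toRay y) := by
      rw [← NNReal.coe_le_coe, coe_nndist, hd]
      have h2 : (R : ℝ) ≤ R0 := by exact_mod_cast hR0
      have h3 : (R0 : ℝ) < (rayG C).dist x y := by exact_mod_cast hcon
      linarith
    have h2 := hR _ h1
    have h3 := (hf (toRay x) (toRay y)).1
    have h4 : (L : NNReal) < nndist (f (toRay x)) (f (toRay y)) := h2.trans_le h3
    have h5 : (L : ℝ) < dist (f (toRay x)) (f (toRay y)) := by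
      rw [← coe_nndist]; exact_mod_cast h4
    linarith
  have key := hπ k (s k) (fun n : ℕ => f (toRay n))
  rw [hk] at key
  obtain ⟨i, hi⟩ := key rfl (fun i => hadjL i (i + 1) (adj_succ C i)) (by
    intro i
    have hinj : Set.InjOn (fun j : Fin (m k (s k)) => s k + 2 ^ k * (m k (s k) + (j : ℕ) + 1))
        Set.univ := by
      intro a _ b _ hab
      have h1 : 2 ^ k * (m k (s k) + (a : ℕ) + 1) = 2 ^ k * (m k (s k) + (b : ℕ) + 1) := by
        simpa using hab
      have h2 := Nat.eq_of_mul_eq_mul_left (by positivity) h1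
      exact Fin.ext (by omega)
    have h1 := ball_bound hC R0 (s k + 2 ^ k * ((i : ℕ) + 1))
    refine le_trans ?_ h1
    refine Set.encard_le_encard_of_injOn (f := fun j : Fin (m k (s k)) =>
      s k + 2 ^ k * (m k (s k) + (j : ℕ) + 1)) ?_ (hinj.mono (Set.subset_univ _))
    intro j hj
    exact hclose _ _ hj)
  have h2 := hadjL _ _ (adj_chord hC ⟨k, i, rfl, rfl⟩)
  exact absurd h2 (not_le.mpr hi)

end Pool.Agent.Results.MP_2fc951_gt.NoUniversal
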